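import Mathlib
import Pool.Agent.H594.ZP.Fam

/-!
Exponential sums in families: coefficients and bases multiplied by algebraic numbers of small height.
-/

set_option autoImplicit false
set_option linter.unusedSectionVars false

namespace Pool.Agent.H594.SK

open Finset Module
open Pool.Agent.H594.ML Pool.Agent.H594.WI Pool.Agent.H594.KP Pool.Agent.H594.BD Pool.Agent.H594.ZP
open Pool.Agent.Helper259.AbsHt Pool.Agent.Y215.SK

open scoped Classical

/-- the minimum of the numbers `e_i + n f_i` is attained at least twice -/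
def Tie {k : ℕ} (e f : Fin k → ℤ) (n : ℤ) : Prop :=
  ∃ i j, i ≠ j ∧ e i + n * f i = e j + n * f j ∧ ∀ p, e i + n * f i ≤ e p + n * f p

theorem gap {k : ℕ} [Nonempty (Fin k)] (e f : Fin k → ℤ) (hf : Function.Injective f) (E : ℕ)
    (hE : ∀ i j, |e i - e j| ≤ E) (n : ℤ) (h : ¬ Tie e f n) (c : ℝ) (hc0 : 0 ≤ c)
    (hc : c * (E + 1) < 1) :
    ∃ i, ∀ j, j ≠ i → c * max 1 |(n : ℝ)| < ((e j + n * f j) - (e i + n * f i) : ℤ) := by
  obtain ⟨i, hi⟩ := Finite.exists_min fun i => e i + n * f i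
  refine ⟨i, fun j hj => ?_⟩
  have h1 : e i + n * f i < e j + n * f j := by
    refine lt_of_le_of_ne (hi j) fun h2 => h ⟨i, j, hj.symm, h2, hi⟩
  set D : ℤ := (e j + n * f j) - (e i + n * f i) with hD
  have hD1 : 1 ≤ D := by omega
  have hD2 : |n| ≤ E ∨ |n| - E ≤ D := by
    have h2 := hE i j
    have h3 : f j - f i ≠ 0 := sub_ne_zero.2 fun h => hj (hf h)
    have h4 : |n| ≤ |n * (f j - f i)| := by
      rw [abs_mul]
      have h5 : 1 ≤ |f j - f i| := Int.one_le_abs h3
      nlinarith [abs_nonneg n]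
    have h6 : D = (e j - e i) + n * (f j - f i) := by rw [hD]; ring
    rw [abs_le] at h2
    rcases le_or_gt 0 (n * (f j - f i)) with h7 | h7
    · right
      rw [abs_of_nonneg h7] at h4
      omega
    · left
      rw [abs_of_neg h7] at h4
      omega
  have hD1' : (1 : ℝ) ≤ D := by exact_mod_cast hD1
  have hE0 : (0 : ℝ) ≤ E := Nat.cast_nonneg E
  have hc1 : c < 1 := by nlinarith
  have hn : (|n| : ℤ) = (|n| : ℤ) := rfl
  have habs : |(n : ℝ)| = ((|n| : ℤ) : ℝ) := by push_cast; rfl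
  rcases le_or_gt |(n : ℝ)| ((E : ℝ) + 1) with h8 | h8
  · have h9 : max 1 |(n : ℝ)| ≤ E + 1 := max_le (by linarith) h8
    have h10 : c * max 1 |(n : ℝ)| ≤ c * (E + 1) := mul_le_mul_of_nonneg_left h9 hc0
    linarith
  · have h9 : max 1 |(n : ℝ)| = |(n : ℝ)| := max_eq_right (by linarith)
    have h10 : |(n : ℝ)| - E ≤ D := by
      rcases hD2 with h11 | h11
      · have h12 : |(n : ℝ)| ≤ E := by rw [habs]; exact_mod_cast h11
        linarith
      · rw [habs]
        exact_mod_cast h11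
    rw [h9]
    nlinarith

/-- sums the terms of which have different values do not vanish -/
theorem sum_ne_zero {ι : Type*} [Fintype ι] {G : Type*} [LinearOrderedCommGroupWithZero G]
    (v : Valuation ℂ G) (T : ι → ℂ) (i : ι) (hi : T i ≠ 0) (h : ∀ j, j ≠ i → v (T j) < v (T i)) :
    ∑ j, T j ≠ 0 := by
  intro h0
  rw [← Finset.add_sum_erase _ _ (Finset.mem_univ i)] at h0
  have h1 : v (∑ j ∈ Finset.univ.erase i, T j) < v (T i) :=
    v.map_sum_lt ((Valuation.ne_zero_iff _).2 hi) fun j hj => h j (Finset.ne_of_mem_erase hj)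
  have h2 : T i = -∑ j ∈ Finset.univ.erase i, T j := eq_neg_of_add_eq_zero_left h0
  rw [h2, Valuation.map_neg] at h1
  exact lt_irrefl _ h1

variable {k M d : ℕ}

/-- **Families of linear recurrence sequences** near the degenerate members. -/
theorem fam (hk : 1 ≤ k) (hd : 1 ≤ d) (e f : Fin M → Fin k → ℤ) (hf : ∀ l, Function.Injective (f l)) (E : ℕ)
    (hE : ∀ l i j, |e l i - e l j| ≤ E) (κ : ℝ) (hκ : κ < 1 / (8 * (d + 1) * (E + 1)))
    (K : IntermediateField ℚ ℂ) [FiniteDimensional ℚ K] (α : Fin M → ℂ)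
    (hα : Function.Injective α) (hαalg : ∀ l, IsAlgebraic ℚ (α l)) (c lam : Fin k → Polynomial ℂ)
    (hc : ∀ i, c i ≠ 0 ∧ (∀ n, IsAlgebraic ℚ ((c i).coeff n)) ∧
      ∀ l, ((c i).rootMultiplicity (α l) : ℤ) = e l i)
    (hlam : ∀ i, lam i ≠ 0 ∧ (∀ n, IsAlgebraic ℚ ((lam i).coeff n)) ∧
      ∀ l, ((lam i).rootMultiplicity (α l) : ℤ) = f l i)
    (Γ : Set ℂ) (hΓ : Γ.Finite) (hΓalg : ∀ z ∈ Γ, IsAlgebraic ℚ z) :
    {t : ℂ | t ∈ DegLe K d ∧ ¬ ∀ u s v q : Fin k → ℂ,
      (∀ i, UnitOver Γ (u i) ∧ IsAlgebraic ℚ (s i) ∧ s i ≠ 0) →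
      (∀ i, UnitOver Γ (v i) ∧ IsAlgebraic ℚ (q i) ∧ q i ≠ 0) →
      ∑ i, ht (s i) + ∑ i, ht (q i) ≤ κ * ht t →
      ∀ n : ℤ, ({l | Tie (e l) (f l) n}.ncard + 2 * d < M ∨
        (IsIntegral ℤ t ∧ {l | Tie (e l) (f l) n}.ncard + 2 * d < M + 1)) →
        ∑ i, (u i * s i) * (c i).eval t * ((v i * q i) * (lam i).eval t) ^ n ≠ 0}.Finite := by
  have hne : Nonempty (Fin k) := ⟨⟨0, by omega⟩⟩
  have hd1 : (0 : ℝ) < d + 1 := by positivity
  have hE1 : (0 : ℝ) < E + 1 := by positivity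
  -- the constant
  obtain ⟨c1, hc1, hκc, hc1E⟩ : ∃ c1 : ℝ, 0 < c1 ∧ 2 * κ * (4 * d + 4) < c1 ∧
      c1 * (E + 1) < 1 := by
    have h1 : 8 * (d + 1) * κ < 1 / (E + 1) := by
      rw [lt_div_iff₀ (by positivity)] at hκ
      rw [lt_div_iff₀ hE1]
      linarith
    have h2 : max (8 * (d + 1) * κ) 0 < 1 / (E + 1) := max_lt h1 (by positivity)
    refine ⟨(max (8 * (d + 1) * κ) 0 + 1 / (E + 1)) / 2, ?_, ?_, ?_⟩
    · have : 0 ≤ max (8 * (d + 1) * κ) 0 := le_max_right _ _
      have : 0 < 1 / ((E : ℝ) + 1) := by positivity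
      linarith
    · have h3 : 8 * (d + 1) * κ ≤ max (8 * (d + 1) * κ) 0 := le_max_left _ _
      have h4 : 2 * κ * (4 * d + 4) = 8 * (d + 1) * κ := by ring
      rw [h4]
      linarith
    · rw [← lt_div_iff₀ hE1]
      linarith
  choose α' hα' using fun l => exists_sg (hαalg l)
  have hα'inj : Function.Injective α' := fun x y hxy => hα (by rw [← hα', ← hα', hxy])
  have hΓ' : (sg ⁻¹' Γ).Finite := hΓ.preimage sg_inj.injOn
  have hΓim : sg '' (sg ⁻¹' Γ) = Γ := by
    rw [Set.image_preimage_eq_iff]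
    intro z hz
    exact exists_sg (hΓalg z hz)
  let A : Fin k → Finset (Fin 1 → ℤ) := fun _ => {fun _ => 0, fun _ => 1}
  let cc : Fin k → (Fin 1 → ℤ) → Polynomial ℂ := fun i β => if β 0 = 0 then c i else lam i
  obtain ⟨W, hW, hWV⟩ := near_sg A cc (fun j β _ => by
      by_cases h : β 0 = 0
      · rw [show cc j β = c j from if_pos h]
        exact (hc j).1
      · rw [show cc j β = lam j from if_neg h]
        exact (hlam j).1)
    (fun j β _ => by
      by_cases h : β 0 = 0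
      · rw [show cc j β = c j from if_pos h]
        exact (hc j).2.1
      · rw [show cc j β = lam j from if_neg h]
        exact (hlam j).2.1) α' (sg ⁻¹' Γ) hΓ'
  have hfd : FiniteDimensional ℚ (K.comap sgA) := comap_fin K
  obtain ⟨Ex, hEx, hREx, hmain⟩ := good_places (K.comap sgA) (Finset.univ.image α') hW.toFinset d hd
    c1 κ hc1 hκc
  have hroots : (⋃ i, {t : ℂ | (c i).eval t = 0 ∨ (lam i).eval t = 0}).Finite := by
    refine Set.finite_iUnion fun i => ?_
    have h1 : {t : ℂ | (c i).eval t = 0}.Finite := by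
      refine (c i).roots.toFinset.finite_toSet.subset fun t ht => ?_
      rw [Finset.mem_coe, Multiset.mem_toFinset, Polynomial.mem_roots (hc i).1]
      exact ht
    have h2 : {t : ℂ | (lam i).eval t = 0}.Finite := by
      refine (lam i).roots.toFinset.finite_toSet.subset fun t ht => ?_
      rw [Finset.mem_coe, Multiset.mem_toFinset, Polynomial.mem_roots (hlam i).1]
      exact ht
    exact (h1.union h2).subset fun t ht => ht
  refine ((hEx.image sg).union hroots).subset ?_
  rintro t ⟨htd, hno⟩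
  by_contra hcon
  rw [Set.mem_union, not_or] at hcon
  obtain ⟨g1, h2⟩ := hcon
  have hcev : ∀ i, (c i).eval t ≠ 0 := fun i h3 => h2 (Set.mem_iUnion.2 ⟨i, Or.inl h3⟩)
  have hlev : ∀ i, (lam i).eval t ≠ 0 := fun i h3 => h2 (Set.mem_iUnion.2 ⟨i, Or.inr h3⟩)
  apply hno
  intro u s v q hus hvq hsum n hn
  obtain ⟨z, rfl⟩ := exists_sg (degLe_alg htd)
  have hzE : z ∉ Ex := fun h3 => g1 ⟨z, h3, rfl⟩
  obtain ⟨R', hR', hcard1, hcard2, hplaces⟩ := hmain z (degQ_of htd) hzE
  have hRcard : (Finset.univ.image α').card = M := by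
    rw [Finset.card_image_of_injective _ hα'inj, Finset.card_univ, Fintype.card_fin]
  -- a place without a tie
  obtain ⟨l, hlR, hl⟩ : ∃ l, α' l ∈ R' ∧ ¬ Tie (e l) (f l) n := by
    by_contra hcon
    push Not at hcon
    have h3 : R' ⊆ (Finset.univ.filter fun l => Tie (e l) (f l) n).image α' := by
      intro x hx
      obtain ⟨l, -, rfl⟩ := Finset.mem_image.1 (hR' hx)
      exact Finset.mem_image_of_mem _ (Finset.mem_filter.2 ⟨Finset.mem_univ _, hcon l hx⟩)
    have h4 := Finset.card_le_card h3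
    rw [Finset.card_image_of_injective _ hα'inj] at h4
    have h5 : {l | Tie (e l) (f l) n}.ncard =
        (Finset.univ.filter fun l => Tie (e l) (f l) n).card := by
      rw [← Set.ncard_coe_finset]
      congr 1
      ext l
      simp
    rw [h5] at hn
    rcases hn with h6 | ⟨h6, h7⟩
    · omega
    · have hi' : IsIntegral ℤ z := (isIntegral_algHom_iff (sg.toIntAlgHom) sg_inj).1 h6
      have := hcard2 hi'
      omega
  -- the small numbers
  have hy : ∀ x : Fin k ⊕ Fin k, ∃ y : Qbar, sg y = Sum.elim s q x := by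
    rintro (i | i)
    · exact exists_sg (hus i).2.1
    · exact exists_sg (hvq i).2.1
  choose y hy using hy
  have hy0 : ∀ x, y x ≠ 0 := by
    intro x h3
    have h4 := hy x
    rw [h3, map_zero] at h4
    rcases x with i | i
    · exact (hus i).2.2 h4.symm
    · exact (hvq i).2.2 h4.symm
  have hysum : ∑ x, h1 (y x) ≤ κ * h1 z := by
    have e1 : ∀ x, h1 (y x) = ht (sg (y x)) := fun x => (ht_sg _).symm
    rw [← ht_sg z]
    refine le_trans (le_of_eq ?_) hsum
    rw [Fintype.sum_sum_type]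
    congr 1
    · refine Finset.sum_congr rfl fun i _ => ?_
      rw [e1, hy]
      rfl
    · refine Finset.sum_congr rfl fun i _ => ?_
      rw [e1, hy]
      rfl
  obtain ⟨V, π, hπ0, hπ1, hV, m, hm, hVm, kk, hkk, hkksum⟩ :=
    hplaces (Fin k ⊕ Fin k) y hy0 hysum (α' l) hlR
  have hVW : ∀ z ∈ W, sg z ∈ V := fun z hz => hV z (hW.mem_toFinset.2 hz)
  have hunit : ∀ w, UnitOver Γ w → V.valuation w = 1 := by
    intro w hw
    refine (hWV V hVW).1 w ?_
    rw [hΓim]
    exact hw
  have hsub : V.valuation (sg z - sg (α' l)) = V.valuation π ^ m := by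
    rw [← map_sub]
    exact hVm
  have hlt : V.valuation (sg z - sg (α' l)) < 1 := by
    rw [hsub]
    obtain ⟨m', hm'⟩ : ∃ m' : ℕ, m = m' := ⟨m.toNat, (Int.toNat_of_nonneg hm.le).symm⟩
    rw [hm', zpow_natCast]
    refine pow_lt_one₀ zero_le hπ1 ?_
    rintro rfl
    omega
  have hcV : ∀ i, V.valuation ((c i).eval (sg z)) = V.valuation π ^ (m * e l i) := by
    intro i
    have h3 := (hWV V hVW).2 l (sg z) hlt i (fun _ => 0) (by simp [A])
    have h4 : cc i (fun _ => 0) = c i := if_pos rfl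
    rw [h4, hsub, ← zpow_natCast, ← zpow_mul] at h3
    rw [h3]
    congr 2
    rw [hα']
    exact (hc i).2.2 l
  have hlV : ∀ i, V.valuation ((lam i).eval (sg z)) = V.valuation π ^ (m * f l i) := by
    intro i
    have h3 := (hWV V hVW).2 l (sg z) hlt i (fun _ => 1) (by simp [A])
    have h4 : cc i (fun _ => 1) = lam i := if_neg one_ne_zero
    rw [h4, hsub, ← zpow_natCast, ← zpow_mul] at h3
    rw [h3]
    congr 2
    rw [hα']
    exact (hlam i).2.2 l
  have hπv : V.valuation π ≠ 0 := (Valuation.ne_zero_iff _).2 hπ0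
  let X : Fin k → ℤ := fun i => kk (Sum.inl i) + n * kk (Sum.inr i)
  have hT : ∀ i, V.valuation ((u i * s i) * (c i).eval (sg z) *
      ((v i * q i) * (lam i).eval (sg z)) ^ n) =
      V.valuation π ^ (m * (e l i + n * f l i) + X i) := by
    intro i
    have h3 : V.valuation (s i) = V.valuation π ^ kk (Sum.inl i) := by
      have := hkk (Sum.inl i)
      rw [hy] at this
      exact this
    have h4 : V.valuation (q i) = V.valuation π ^ kk (Sum.inr i) := by
      have := hkk (Sum.inr i)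
      rw [hy] at this
      exact this
    rw [map_mul, map_mul, map_mul, map_zpow₀, map_mul, map_mul, hunit _ (hus i).1,
      hunit _ (hvq i).1, one_mul, one_mul, h3, h4, hcV, hlV, ← zpow_add₀ hπv, ← zpow_add₀ hπv,
      ← zpow_mul, ← zpow_add₀ hπv]
    congr 1
    show _ = m * (e l i + n * f l i) + (kk (Sum.inl i) + n * kk (Sum.inr i))
    ring
  obtain ⟨i, hi⟩ := gap (e l) (f l) (hf l) E (hE l) n hl c1 hc1.le hc1E
  refine sum_ne_zero V.valuation _ i ?_ fun j hj => ?_
  · exact mul_ne_zero (mul_ne_zero (mul_ne_zero (hus i).1.1 (hus i).2.2) (hcev i))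
      (zpow_ne_zero _ (mul_ne_zero (mul_ne_zero (hvq i).1.1 (hvq i).2.2) (hlev i)))
  · rw [hT, hT]
    have h3 : m * (e l i + n * f l i) + X i < m * (e l j + n * f l j) + X j := by
      have h4 := hi j hj
      have hm' : (0 : ℝ) < m := by exact_mod_cast hm
      have hmax1 : (1 : ℝ) ≤ max 1 |(n : ℝ)| := le_max_left _ _
      have h5 : |(X i : ℝ)| + |(X j : ℝ)| ≤ max 1 |(n : ℝ)| * ∑ x, |(kk x : ℝ)| := by
        have h6 : ∀ p, |(X p : ℝ)| ≤ max 1 |(n : ℝ)| *
            (|(kk (Sum.inl p) : ℝ)| + |(kk (Sum.inr p) : ℝ)|) := by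
          intro p
          have h7 : (X p : ℝ) = kk (Sum.inl p) + n * kk (Sum.inr p) := by
            show ((kk (Sum.inl p) + n * kk (Sum.inr p) : ℤ) : ℝ) = _
            push_cast
            ring
          rw [h7, mul_add]
          refine (abs_add_le _ _).trans (add_le_add ?_ ?_)
          · exact le_mul_of_one_le_left (abs_nonneg _) hmax1
          · rw [abs_mul]
            exact mul_le_mul_of_nonneg_right (le_max_right _ _) (abs_nonneg _)
        have h8 : (|(kk (Sum.inl i) : ℝ)| + |(kk (Sum.inr i) : ℝ)|) +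
            (|(kk (Sum.inl j) : ℝ)| + |(kk (Sum.inr j) : ℝ)|) ≤ ∑ x, |(kk x : ℝ)| := by
          rw [Fintype.sum_sum_type, ← Finset.sum_add_distrib,
            ← Finset.add_sum_erase _ _ (Finset.mem_univ i)]
          refine add_le_add le_rfl ?_
          exact Finset.single_le_sum
            (f := fun p => |(kk (Sum.inl p) : ℝ)| + |(kk (Sum.inr p) : ℝ)|)
            (fun p _ => add_nonneg (abs_nonneg _) (abs_nonneg _))
            (Finset.mem_erase.2 ⟨hj, Finset.mem_univ j⟩)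
        calc |(X i : ℝ)| + |(X j : ℝ)| ≤ _ := add_le_add (h6 i) (h6 j)
          _ = max 1 |(n : ℝ)| * ((|(kk (Sum.inl i) : ℝ)| + |(kk (Sum.inr i) : ℝ)|) +
            (|(kk (Sum.inl j) : ℝ)| + |(kk (Sum.inr j) : ℝ)|)) := by ring
          _ ≤ _ := mul_le_mul_of_nonneg_left h8 (by linarith)
      have h9 : max 1 |(n : ℝ)| * ∑ x, |(kk x : ℝ)| ≤ max 1 |(n : ℝ)| * (c1 * m) :=
        mul_le_mul_of_nonneg_left hkksum (by linarith)
      have h10 : m * (c1 * max 1 |(n : ℝ)|) <
          m * (((e l j + n * f l j) - (e l i + n * f l i) : ℤ) : ℝ) :=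
        mul_lt_mul_of_pos_left h4 hm'
      have h11 : ((m * (e l i + n * f l i) + X i : ℤ) : ℝ) <
          ((m * (e l j + n * f l j) + X j : ℤ) : ℝ) := by
        push_cast at h10 ⊢
        have h12 : (X i : ℝ) - X j ≤ |(X i : ℝ)| + |(X j : ℝ)| := by
          have := le_abs_self (X i : ℝ)
          have := neg_abs_le (X j : ℝ)
          linarith
        nlinarith
      exact_mod_cast h11
    exact (zpow_lt_zpow_iff_right_of_lt_one₀ (zero_lt_iff.2 hπv) hπ1).2 h3

/-- There are no ties at large indices. -/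
theorem no_tie {k : ℕ} (e f : Fin k → ℤ) (hf : Function.Injective f) (E : ℕ)
    (hE : ∀ i j, |e i - e j| ≤ E) (n : ℤ) (hn : (E : ℤ) < |n|) : ¬ Tie e f n := by
  rintro ⟨i, j, hij, h, -⟩
  have h1 := hE i j
  have h3 : f j - f i ≠ 0 := sub_ne_zero.2 fun h => hij (hf h).symm
  have h4 : |n| ≤ |n * (f j - f i)| := by
    rw [abs_mul]
    have h5 : 1 ≤ |f j - f i| := Int.one_le_abs h3
    nlinarith [abs_nonneg n]
  have h5 : n * (f j - f i) = e i - e j := by linear_combination -h
  rw [h5] at h4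
  omega

end Pool.Agent.H594.SK
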